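import Pool.Agent.TH464.PO.Two
import Pool.Agent.TH464.PO.QuadAP

set_option autoImplicit false

/-!
# `m ^ 2 + 3 m + 1`: the density in all windows around almost all of the good integers

Let `m` be good if `m ^ 2 + 3 m + 1` has at most `2 r` prime factors, all larger than `X ^ (1 /
r)`. Let `V` be the product of `1 - ρ(p) / p` over the primes `p ≤ X ^ (1 / r)`. Given `θ > 0` and
`ε > 0` there are `K` and `r0` such that for every `r ≥ r0` and all large `X`, in EVERY interval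
`(X, X + Y]` with `X ^ θ ≤ Y ≤ X`, for all but at most `ε Y V` of its good integers `m` (there are
about `Y V` of them) ALL windows `(u, v]` around `m` inside `(X, X + Y]` of length at least `K /
V` contain `(1 ± ε) (v - u) V` good integers.
-/

namespace Pool.Agent.Results.MP_d57abb_nt.ExactNeighbours

open Finset Filter

/-- `N` has at most `B` prime factors (with multiplicity), all of them larger than `z`. -/
def AlmostPrime (B : ℕ) (z : ℝ) (N : ℕ) : Prop :=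
  N.primeFactorsList.length ≤ B ∧ ∀ p : ℕ, p.Prime → p ∣ N → z < (p : ℝ)

/-- `m` is good: `m ^ 2 + 3 m + 1` has at most `2 r` prime factors, all larger than `X ^ (1 / r)`. -/
def Good (r X m : ℕ) : Prop :=
  AlmostPrime (2 * r) ((X : ℝ) ^ (1 / (r : ℝ))) (m ^ 2 + 3 * m + 1)

open Classical in
/-- The sieve density: the product of `1 - ρ(p) / p` over the primes `p ≤ X ^ (1 / r)`, where `ρ(p)` is
the number of the `a` mod `p` with `p ∣ a ^ 2 + 3 a + 1`. -/
noncomputable def V (r X : ℕ) : ℝ :=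
  ∏ p ∈ (Finset.range (⌊(X : ℝ) ^ (1 / (r : ℝ))⌋₊ + 1)).filter Nat.Prime,
    (1 - (((Finset.range p).filter (fun a : ℕ => p ∣ a ^ 2 + 3 * a + 1)).card : ℝ) / p)

open Classical in
/-- The number of the good `k` in `(u, v]`. -/
noncomputable def N (r X u v : ℕ) : ℕ :=
  ((Finset.Ioc u v).filter (fun k => Good r X k)).card

/-- All windows around `n` inside `(X, X + Y]` of length at least `K / V` have the density `V` up to
`ε`. -/
def AllWindows (r : ℕ) (K ε : ℝ) (X Y n : ℕ) : Prop :=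
  ∀ u v : ℕ, X ≤ u → u < n → n ≤ v → v ≤ X + Y → K ≤ ((v : ℝ) - u) * V r X →
    |(N r X u v : ℝ) - (v - u) * V r X| ≤ ε * ((v - u) * V r X)

open Pool.Agent.TH464.PO Pool.Agent.TH464.PW Pool.Agent.W123.RU Pool.Agent.W123.RU.Poly
open Pool.Agent.H373R2.T7 Pool.Agent.W123.RP

lemma good_iff (r : ℕ) (hr : 1 ≤ r) : ∀ᶠ X : ℕ in atTop, ∀ m : ℕ, m ≤ 3 * X →
    (Sf (Q (qs 1 3 1)) ⌊(X : ℝ) ^ (1 / (r : ℝ))⌋₊ m ↔ Good r X m) := by
  filter_upwards [sf_one (quad 1 3 1) 2 (quad_deg 1 3 1 one_ne_zero).le r hr] with X hX m hm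
  have e : ((quad 1 3 1).eval (m : ℤ)).natAbs = m ^ 2 + 3 * m + 1 := by
    have e1 : (1 : ℤ) * (m : ℤ) ^ 2 + 3 * m + 1 = ((m ^ 2 + 3 * m + 1 : ℕ) : ℤ) := by
      push_cast
      ring
    rw [quad_eval, e1, Int.natAbs_natCast]
  have h := hX m hm
  rw [e] at h
  exact h

lemma V_eq (r X : ℕ) : Vq (Q (qs 1 3 1)) ⌊(X : ℝ) ^ (1 / (r : ℝ))⌋₊ = V r X :=
  V_gen (qs 1 3 1) (fun p a => p ∣ a ^ 2 + 3 * a + 1) (fun p m => by
    have e : (1 : ℤ) * (m : ℤ) ^ 2 + 3 * m + 1 = ((m ^ 2 + 3 * m + 1 : ℕ) : ℤ) := by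
      push_cast
      ring
    rw [qs_Q, e, Int.natCast_dvd_natCast]) _

open Classical in
/-- **The density in all windows around almost all of the good integers.** -/
theorem result (θ : ℝ) (hθ : 0 < θ) (ε : ℝ) (hε : 0 < ε) :
    ∃ (K : ℝ) (r0 : ℕ), 0 < K ∧ ∀ r : ℕ, r0 ≤ r → ∀ᶠ X : ℕ in atTop, ∀ Y : ℕ, (X : ℝ) ^ θ ≤ Y → Y ≤ X →
      (((Finset.Ioc X (X + Y)).filter
        (fun m => Good r X m ∧ ¬ AllWindows r K ε X Y m)).card : ℝ) ≤ ε * (Y * V r X) := by
  obtain ⟨K, r0, hK, h⟩ := pack_exact (qs 1 3 1) Good V (qs_sys 1 3 1 one_pos (fun p hp h => not_dvd_one p hp h.1) (by decide) nsq5) (qs_noTr 1 3 1 one_pos) good_iff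
    V_eq θ hθ ε hε
  refine ⟨K, r0, hK, fun r hr => ?_⟩
  filter_upwards [h r hr] with X hX Y h1 h2
  exact (hX Y h1 h2).2

end Pool.Agent.Results.MP_d57abb_nt.ExactNeighbours
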