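import Pool.Agent.TH464.PO.Two
import Pool.Agent.TH464.PO.QuadAP

set_option autoImplicit false

/-!
# The exponential law for the gaps between the almost prime values of `m ^ 2 + 3 m + 1`

Let `m` be good if `m ^ 2 + 3 m + 1` has at most `2 r` prime factors, all larger than `X ^ (1 /
r)`. Let `V` be the product of `1 - ρ(p) / p` over the primes `p ≤ X ^ (1 / r)`. In every interval
`(X, X + Y]` with `X ^ θ ≤ Y ≤ X` the gaps between consecutive good integers have, in the scale `1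
/ V`, the exponential distribution up to `ε`, uniformly in all gap lengths; more generally the
distances between a good integer and its `k`-th good predecessor have the Gamma distribution up to
`ε`.
-/

namespace Pool.Agent.Results.MP_d57abb_nt.ExponentialGaps

open Finset Filter

/-- `N` has at most `B` prime factors (with multiplicity), all of them larger than `z`. -/
def AlmostPrime (B : ℕ) (z : ℝ) (N : ℕ) : Prop :=
  N.primeFactorsList.length ≤ B ∧ ∀ p : ℕ, p.Prime → p ∣ N → z < (p : ℝ)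

/-- `m` is good: `m ^ 2 + 3 m + 1` has at most `2 r` prime factors, all larger than `X ^ (1 / r)`. -/
def Good (r X m : ℕ) : Prop :=
  AlmostPrime (2 * r) ((X : ℝ) ^ (1 / (r : ℝ))) (m ^ 2 + 3 * m + 1)

open Classical in
/-- The sieve density: the product of `1 - ρ(p) / p` over the primes `p ≤ X ^ (1 / r)`, where `ρ(p)` is
the number of the `a` mod `p` with `p ∣ a ^ 2 + 3 a + 1`. -/
noncomputable def V (r X : ℕ) : ℝ :=
  ∏ p ∈ (Finset.range (⌊(X : ℝ) ^ (1 / (r : ℝ))⌋₊ + 1)).filter Nat.Prime,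
    (1 - (((Finset.range p).filter (fun a : ℕ => p ∣ a ^ 2 + 3 * a + 1)).card : ℝ) / p)

open Classical in
/-- The number of the good `b` in `(X, X + Y]` with fewer than `k` good integers in `[b - T, b)`, that is,
whose `k`-th good predecessor is at distance more than `T`. For `k = 1`: the good `b` in `(X, X + Y]`
with gap more than `T` before them. -/
noncomputable def Far (r X Y k T : ℕ) : ℕ :=
  ((Finset.Ioc X (X + Y)).filter (fun b => Good r X b ∧
    ((Finset.Ico (b - T) b).filter (fun m => Good r X m)).card < k)).card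

open Pool.Agent.TH464.PO Pool.Agent.TH464.PW Pool.Agent.W123.RU Pool.Agent.W123.RU.Poly
open Pool.Agent.H373R2.T7 Pool.Agent.W123.RP

lemma good_iff (r : ℕ) (hr : 1 ≤ r) : ∀ᶠ X : ℕ in atTop, ∀ m : ℕ, m ≤ 3 * X →
    (Sf (Q (qs 1 3 1)) ⌊(X : ℝ) ^ (1 / (r : ℝ))⌋₊ m ↔ Good r X m) := by
  filter_upwards [sf_one (quad 1 3 1) 2 (quad_deg 1 3 1 one_ne_zero).le r hr] with X hX m hm
  have e : ((quad 1 3 1).eval (m : ℤ)).natAbs = m ^ 2 + 3 * m + 1 := by
    have e1 : (1 : ℤ) * (m : ℤ) ^ 2 + 3 * m + 1 = ((m ^ 2 + 3 * m + 1 : ℕ) : ℤ) := by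
      push_cast
      ring
    rw [quad_eval, e1, Int.natAbs_natCast]
  have h := hX m hm
  rw [e] at h
  exact h

lemma V_eq (r X : ℕ) : Vq (Q (qs 1 3 1)) ⌊(X : ℝ) ^ (1 / (r : ℝ))⌋₊ = V r X :=
  V_gen (qs 1 3 1) (fun p a => p ∣ a ^ 2 + 3 * a + 1) (fun p m => by
    have e : (1 : ℤ) * (m : ℤ) ^ 2 + 3 * m + 1 = ((m ^ 2 + 3 * m + 1 : ℕ) : ℤ) := by
      push_cast
      ring
    rw [qs_Q, e, Int.natCast_dvd_natCast]) _

open Classical in
/-- **The exponential law for the gaps** (`k = 1`, all `T`), and the Gamma law for the distances to the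
`k`-th predecessor, in every short interval. -/
theorem result (θ : ℝ) (hθ : 0 < θ) (k0 : ℕ) (x ε : ℝ) (hε : 0 < ε) :
    ∃ r0 : ℕ, ∀ r : ℕ, r0 ≤ r → ∀ᶠ X : ℕ in atTop, ∀ Y : ℕ, (X : ℝ) ^ θ ≤ Y → Y ≤ X →
      ∀ k T : ℕ, (k ≤ k0 ∨ T * V r X ≤ x) →
        |(Far r X Y k T : ℝ) - Y * V r X *
          ∑ j ∈ Finset.range k, Real.exp (-(T * V r X)) * (T * V r X) ^ j / j.factorial| ≤
            ε * (Y * V r X) :=
  pack_gaps (qs 1 3 1) Good V (qs_sys 1 3 1 one_pos (fun p hp h => not_dvd_one p hp h.1) (by decide) nsq5) (qs_noTr 1 3 1 one_pos) good_iff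
    V_eq θ hθ k0 x ε hε

end Pool.Agent.Results.MP_d57abb_nt.ExponentialGaps
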