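import Pool.Agent.TH882.T2

/-!
Prime values of `n ^ 2 + 3 n + a`: for all but a proportion `κ` of the vectors `(a_1, ..., a_r)` without
local obstruction, `n` and all `n ^ 2 + 3 n + a_j` are prime for at least `c x / (log x) ^ (r + 1)`
numbers `n ≤ x` which have no other prime at distance at most `L log x`.
-/

set_option autoImplicit false

open Finset Filter Topology Polynomial

namespace Pool.Agent.Results.MP_d57abb_nt.IsolatedArguments

/-- The only prime at distance at most `R` from `p` is `p` itself (if it is one). -/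
def Isolated (R : ℝ) (p : ℕ) : Prop := ∀ q : ℕ, q.Prime → |(q : ℝ) - p| ≤ R → q = p

/-- For every prime `l` there is an integer `n` such that `l` divides none of the numbers `n` and
`n ^ 2 + 3 * n + a_j`. -/
def Admissible {r : ℕ} (a : Fin r → ℕ) : Prop :=
  ∀ l : ℕ, l.Prime → ∃ n : ℤ, ¬ (l : ℤ) ∣ n ∧ ∀ j, ¬ (l : ℤ) ∣ n ^ 2 + 3 * n + a j

open Classical in
/-- The primes `n ≤ x` without other primes at distance at most `L * log x` for which all
`n ^ 2 + 3 * n + a_j` are prime. -/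
noncomputable def arguments {r : ℕ} (L : ℝ) (a : Fin r → ℕ) (x : ℕ) : Finset ℕ :=
  (Icc 1 x).filter (fun n => n.Prime ∧ Isolated (L * Real.log x) n ∧
    ∀ j, (n ^ 2 + 3 * n + a j).Prime)

open Classical in
/-- The admissible vectors `1 ≤ a_j ≤ K x ^ 2` with few arguments. -/
noncomputable def exceptions (r : ℕ) (L c : ℝ) (K x : ℕ) : Finset (Fin r → ℕ) :=
  (Fintype.piFinset (fun _ : Fin r => Icc 1 (K * x ^ 2))).filter (fun a =>
    Admissible a ∧ ((arguments L a x).card : ℝ) < c * (x / Real.log x ^ (r + 1)))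

theorem result (r : ℕ) (L : ℝ) (K : ℕ) (κ : ℝ) (hκ : 0 < κ) :
    (∃ c : ℝ, 0 < c ∧ ∃ x₀ : ℕ, ∀ x : ℕ, x₀ ≤ x →
      ((exceptions r L c K x).card : ℝ) ≤ κ * ((x : ℝ) ^ 2) ^ r) ∧
    ∀ a' : ℕ, Admissible (fun _ : Fin 1 => a') ↔ a' % 2 = 1 ∧ a' % 3 ≠ 2 := by
  classical
  have main : ∀ r : ℕ, ∃ g : Fin r → ℤ[X], (∀ j, (g j).natDegree = 2) ∧
      (∀ j, (g j).leadingCoeff = 1) ∧ ∀ j, ∀ n : ℤ, (g j).eval n = n ^ 2 + 3 * n := by
    intro r
    have hne : (1 : ℤ) ≠ 0 := by norm_num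
    refine ⟨fun _ => C 1 * X ^ 2 + C 3 * X + C 0, fun _ => natDegree_quadratic hne,
      fun _ => leadingCoeff_quadratic hne, fun _ n => ?_⟩
    simp only [eval_add, eval_mul, eval_C, eval_pow, eval_X]
    ring
  constructor
  · obtain ⟨g, hgd, hgl0, hge⟩ := main r
    have hgd1 : ∀ j, 1 ≤ (g j).natDegree := fun j => by rw [hgd j]; norm_num
    have hgl : ∀ j, 0 < (g j).leadingCoeff := fun j => by rw [hgl0 j]; norm_num
    obtain ⟨c, hc, x₀, h⟩ := Pool.Agent.TH882.TS.iso_main g hgd1 hgl L K κ hκ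
    refine ⟨c, hc, x₀, fun x hx => ?_⟩
    have h1 := h x hx
    have e0 : ∏ j, (x : ℝ) ^ (g j).natDegree = ((x : ℝ) ^ 2) ^ r := by
      rw [prod_congr rfl fun j _ => by rw [hgd j]]
      rw [prod_const, card_univ, Fintype.card_fin]
    rw [e0] at h1
    refine le_trans (Pool.Agent.TH882.TS.sub_exc _ g c K x _ (fun a => arguments L a x)
      ?_ ?_ ?_ ?_) h1
    · intro a hA j
      unfold exceptions at hA
      rw [mem_filter, Fintype.mem_piFinset] at hA
      rw [hgd j]
      exact hA.1 j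
    · intro a hA l hlp
      unfold exceptions at hA
      rw [mem_filter] at hA
      obtain ⟨n, hn1, hn2⟩ := hA.2.1 l hlp
      refine ⟨n, hn1, fun j h => hn2 j ?_⟩
      rw [hge j n, add_comm] at h
      exact h
    · intro a hA
      unfold exceptions at hA
      rw [mem_filter] at hA
      exact hA.2.2
    · intro a hA n hn1 hn2 hn3 hn4
      unfold arguments
      rw [mem_filter]
      refine ⟨hn1, hn2, hn3, fun j => ?_⟩
      have h2 := hn4 j
      rw [hge j] at h2
      have e2 : (a j : ℤ) + ((n : ℤ) ^ 2 + 3 * (n : ℤ)) = ((n ^ 2 + 3 * n + a j : ℕ) : ℤ) := by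
        push_cast
        ring
      rw [e2, Int.toNat_natCast] at h2
      exact h2
  · intro a'
    constructor
    · intro h
      obtain ⟨n2, hn2, hm2⟩ := h 2 Nat.prime_two
      have hv2 := hm2 0
      push_cast at hn2 hv2
      obtain ⟨n3, hn3, hm3⟩ := h 3 Nat.prime_three
      have hv3 := hm3 0
      push_cast at hn3 hv3
      have hs2 : n2 % 2 = 1 := by omega
      obtain ⟨u2, hu2⟩ : ∃ u : ℤ, n2 = 2 * u + 1 := ⟨n2 / 2, by omega⟩
      have e2 : n2 ^ 2 + 3 * n2 + (a' : ℤ) = 2 * (2 * u2 ^ 2 + 2 * u2 + 3 * u2) + (4 + a') := by rw [hu2]; ring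
      rw [e2] at hv2
      generalize 2 * u2 ^ 2 + 2 * u2 + 3 * u2 = w2 at hv2
      have hs3 : n3 % 3 = 1 ∨ n3 % 3 = 2 := by omega
      rcases hs3 with hs3 | hs3
      · obtain ⟨u3, hu3⟩ : ∃ u : ℤ, n3 = 3 * u + 1 := ⟨n3 / 3, by omega⟩
        have e3 : n3 ^ 2 + 3 * n3 + (a' : ℤ) = 3 * (3 * u3 ^ 2 + 2 * u3 + 3 * u3) + (4 + a') := by rw [hu3]; ring
        rw [e3] at hv3
        generalize 3 * u3 ^ 2 + 2 * u3 + 3 * u3 = w3 at hv3
        · constructor <;> omega
      · obtain ⟨u3, hu3⟩ : ∃ u : ℤ, n3 = 3 * u + 2 := ⟨n3 / 3, by omega⟩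
        have e3 : n3 ^ 2 + 3 * n3 + (a' : ℤ) = 3 * (3 * u3 ^ 2 + 4 * u3 + 3 * u3) + (10 + a') := by rw [hu3]; ring
        rw [e3] at hv3
        generalize 3 * u3 ^ 2 + 4 * u3 + 3 * u3 = w3 at hv3
        · constructor <;> omega
    · intro hcond l hlp
      obtain ⟨hcond1, hcond2⟩ := hcond
      rcases Nat.lt_or_ge l 4 with h4 | h4
      · have hl2 := hlp.two_le
        have h5 : l = 2 ∨ l = 3 := by omega
        rcases h5 with rfl | rfl
        · refine ⟨1, by norm_num, fun j hd => ?_⟩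
          have h7 : ((1 ^ 2 + 3 * 1 : ℤ) + (a' : ℤ)) % 2 = 0 := Int.emod_eq_zero_of_dvd (by exact_mod_cast hd)
          norm_num at h7
          omega
        · by_cases h3 : ((4 : ℤ) + a') % 3 = 0
          · refine ⟨2, by norm_num, fun j hd => ?_⟩
            have h7 : ((2 ^ 2 + 3 * 2 : ℤ) + (a' : ℤ)) % 3 = 0 := Int.emod_eq_zero_of_dvd (by exact_mod_cast hd)
            norm_num at h7
            omega
          · refine ⟨1, by norm_num, fun j hd => h3 ?_⟩
            have h7 : ((1 ^ 2 + 3 * 1 : ℤ) + (a' : ℤ)) % 3 = 0 := Int.emod_eq_zero_of_dvd (by exact_mod_cast hd)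
            norm_num at h7 ⊢
            omega
      · have hl4 : l ≠ 4 := by
          rintro rfl
          exact absurd hlp (by norm_num)
        obtain ⟨g, hgd, hgl, hge⟩ := main 1
        obtain ⟨n, hn1, hn2⟩ := Pool.Agent.TH882.TS.witA g (fun j => by rw [hgd j]; norm_num) l hlp
          (fun j hd => by
            rw [hgl j] at hd
            have h9 : l ∣ 1 := by exact_mod_cast hd
            have h10 := Nat.le_of_dvd (by norm_num) h9
            interval_cases l <;> revert h9 hlp <;> norm_num)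
          (by rw [Fin.sum_univ_one, hgd 0]; omega) (fun _ => a')
        refine ⟨n, hn1, fun j hd => hn2 j ?_⟩
        rw [hge j, add_comm]
        exact hd

end Pool.Agent.Results.MP_d57abb_nt.IsolatedArguments
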